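import Mathlib

set_option autoImplicit false

namespace H446.EX

open Subgroup Finset

universe u

/-- ACT (the ring lives in the universe of the group) -/
theorem exists_ring {T : Type u} [Group T] (S : Subgroup T) [S.Normal]
    (h2 : ∀ s ∈ S, s ^ 2 = 1) (hne : S ≠ ⊥) :
    ∃ (R : Type u) (_ : Ring R) (_ : Nontrivial R) (φ : T →* R), (1 : R) + 1 = 0 ∧
      ∀ (w : T) (p : ℕ), (∀ s ∈ S, (s * w) ^ p = 1) → ∑ k ∈ range p, φ w ^ k = 0 := by
  have hinv : ∀ s : T, s ∈ S → s⁻¹ = s := by
    intro s hs
    have := h2 s hs
    rw [pow_two] at this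
    exact inv_eq_of_mul_eq_one_left this
  have hcomm : ∀ a b : S, a * b = b * a := by
    intro a b
    apply Subtype.ext
    have h1 := hinv (a * b : T) (S.mul_mem a.2 b.2)
    rw [mul_inv_rev, hinv _ a.2, hinv _ b.2] at h1
    exact h1.symm
  letI : CommGroup S := { (inferInstance : Group S) with mul_comm := hcomm }
  obtain ⟨s0, hs0, hs01⟩ : ∃ s ∈ S, s ≠ 1 := by
    by_contra hcon
    push Not at hcon
    exact hne ((Subgroup.eq_bot_iff_forall S).2 hcon)
  let φ : T →* AddMonoid.End (Additive S) :=
    { toFun := fun w => MonoidHom.toAdditive ((MulAut.conjNormal (H := S) w : S ≃* S) : S →* S)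
      map_one' := by
        apply AddMonoidHom.ext
        intro x
        show Additive.ofMul ((MulAut.conjNormal (H := S) (1 : T) : S ≃* S) x.toMul) = x
        rw [map_one]
        rfl
      map_mul' := by
        intro a b
        apply AddMonoidHom.ext
        intro x
        show Additive.ofMul ((MulAut.conjNormal (H := S) (a * b) : S ≃* S) x.toMul) =
          Additive.ofMul ((MulAut.conjNormal (H := S) a : S ≃* S)
            ((MulAut.conjNormal (H := S) b : S ≃* S) x.toMul))
        rw [map_mul]
        rfl }
  have hφ : ∀ (w : T) (s : S), φ w (Additive.ofMul s) =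
      Additive.ofMul ((MulAut.conjNormal (H := S) w : S ≃* S) s) := fun w s => rfl
  refine ⟨AddMonoid.End (Additive S), inferInstance, ⟨1, 0, ?_⟩, φ, ?_, ?_⟩
  · intro h
    have h1 : (1 : AddMonoid.End (Additive S)) (Additive.ofMul ⟨s0, hs0⟩) =
        (0 : AddMonoid.End (Additive S)) (Additive.ofMul ⟨s0, hs0⟩) := by rw [h]
    have h3 : (⟨s0, hs0⟩ : S) = 1 := h1
    exact hs01 (congrArg Subtype.val h3)
  · ext x
    have h1 : (x.toMul * x.toMul : S) = 1 := by
      apply Subtype.ext
      have := h2 _ x.toMul.2
      rw [pow_two] at this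
      exact this
    have h3 : ((1 + 1 : AddMonoid.End (Additive S)) x) = x + x := rfl
    rw [h3]
    exact congrArg (fun y : S => ((y : S) : T)) h1
  · intro w p hw
    have hwp : w ^ p = 1 := by
      have := hw 1 S.one_mem
      rwa [one_mul] at this
    -- the product formula
    have key : ∀ (s : S) (q : ℕ), ((∏ k ∈ range q, (MulAut.conjNormal (H := S) (w ^ k) : S ≃* S) s :
        S) : T) * w ^ q = ((s : T) * w) ^ q := by
      intro s q
      induction q with
      | zero => simp
      | succ q ih =>
        rw [Finset.prod_range_succ, Subgroup.coe_mul, MulAut.conjNormal_apply, pow_succ w,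
          pow_succ _ q, ← ih]
        group
    have hsum : ∀ (f : ℕ → AddMonoid.End (Additive S)) (q : ℕ) (x : Additive S),
        (∑ k ∈ range q, f k) x = ∑ k ∈ range q, f k x := by
      intro f q x
      induction q with
      | zero => rfl
      | succ q ih =>
        rw [Finset.sum_range_succ, Finset.sum_range_succ, ← ih]
        rfl
    apply AddMonoidHom.ext
    intro x
    show (∑ k ∈ range p, φ w ^ k : AddMonoid.End (Additive S)) x = 0
    rw [hsum]
    have h1 : ∀ k : ℕ, (φ w ^ k) x =
        Additive.ofMul ((MulAut.conjNormal (H := S) (w ^ k) : S ≃* S) x.toMul) := by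
      intro k
      rw [← map_pow]
      rfl
    rw [Finset.sum_congr rfl fun k _ => h1 k, ← ofMul_prod]
    have h3 := key x.toMul p
    rw [hwp, mul_one, hw _ x.toMul.2] at h3
    have h4 : (∏ k ∈ range p, (MulAut.conjNormal (H := S) (w ^ k) : S ≃* S) x.toMul : S) = 1 :=
      Subtype.ext h3
    rw [h4]
    rfl

end H446.EX
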