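import Mathlib

set_option autoImplicit false

namespace H446.EX

open Subgroup Finset

/-- ALP: an isolated involution. -/
theorem isolated {T : Type*} [Group T] {m : ℕ} (hm : Odd m)
    (hT : ∀ g : T, g ^ m = 1 ∨ g ^ 2 = 1) (t : T) (ht1 : t ≠ 1) (ht : t ^ 2 = 1)
    (hC : ∀ s : T, s ^ 2 = 1 → s * t = t * s → s = 1 ∨ s = t) :
    ∀ g h : T, g ^ m = 1 → h ^ m = 1 → (g * h) ^ m = 1 := by
  obtain ⟨j, hj⟩ := hm
  -- powers of involutions
  have pm : ∀ u : T, u ^ 2 = 1 → u ^ m = u := by
    intro u hu
    rw [hj, pow_succ, pow_mul, hu, one_pow, one_mul]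
  have F1 : ∀ g : T, g ^ m = 1 → g ^ 2 = 1 → g = 1 := by
    intro g h1 h2
    rw [pm g h2] at h1
    exact h1
  have inv2 : ∀ u : T, u ^ 2 = 1 → u⁻¹ = u := by
    intro u hu
    rw [pow_two] at hu
    exact inv_eq_of_mul_eq_one_left hu
  have tt : t * t = 1 := by rw [← pow_two, ht]
  -- the centraliser of an involution has exponent two
  have hb : ∀ u g : T, u ≠ 1 → u ^ 2 = 1 → Commute u g → g ^ 2 = 1 := by
    intro u g hu1 hu hug
    rcases hT g with hg | hg
    · rcases hT (u * g) with h | h
      · rw [hug.mul_pow, hg, mul_one, pm u hu] at h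
        exact absurd h hu1
      · rw [hug.mul_pow, hu, one_mul] at h
        exact h
    · exact hg
  -- every involution is conjugate to t
  have hc : ∀ v : T, v ≠ 1 → v ^ 2 = 1 → ∃ c : T, c⁻¹ * t * c = v ∧ t * c * t = c⁻¹ := by
    intro v hv1 hv
    have hvv : v * v = 1 := by rw [← pow_two, hv]
    rcases hT (t * v) with h | h
    · have e0 : t * (t * v) * t = (t * v)⁻¹ := by
        rw [mul_inv_rev, inv2 t ht, inv2 v hv, ← mul_assoc, tt, one_mul]
      have e1 : ∀ n : ℕ, t * (t * v) ^ n * t = ((t * v) ^ n)⁻¹ := by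
        intro n
        induction n with
        | zero => simp [tt]
        | succ n ih =>
          calc t * (t * v) ^ (n + 1) * t
              = (t * (t * v) ^ n * t) * (t * (t * v) * t) := by
                rw [pow_succ]
                calc t * ((t * v) ^ n * (t * v)) * t
                    = t * (t * v) ^ n * 1 * (t * v) * t := by group
                  _ = t * (t * v) ^ n * (t * t) * (t * v) * t := by rw [tt]
                  _ = _ := by group
            _ = ((t * v) ^ n)⁻¹ * (t * v)⁻¹ := by rw [ih, e0]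
            _ = ((t * v) ^ (n + 1))⁻¹ := by rw [pow_succ', mul_inv_rev (t * v)]
      refine ⟨(t * v) ^ (j + 1), ?_, e1 _⟩
      have e2 : (t * v) ^ (j + 1) * (t * v) ^ (j + 1) = t * v := by
        rw [← pow_add, show j + 1 + (j + 1) = (2 * j + 1) + 1 by ring, pow_succ, ← hj, h, one_mul]
      have e3 := e1 (j + 1)
      calc ((t * v) ^ (j + 1))⁻¹ * t * (t * v) ^ (j + 1)
          = t * (t * v) ^ (j + 1) * t * t * (t * v) ^ (j + 1) := by rw [← e3]
        _ = t * (t * v) ^ (j + 1) * (t * t) * (t * v) ^ (j + 1) := by group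
        _ = t * ((t * v) ^ (j + 1) * (t * v) ^ (j + 1)) := by rw [tt]; group
        _ = t * (t * v) := by rw [e2]
        _ = v := by rw [← mul_assoc, tt, one_mul]
    · have h1 : v * t = t * v := by
        have h2 := inv2 _ h
        rw [mul_inv_rev, inv2 t ht, inv2 v hv] at h2
        exact h2
      rcases hC v hv h1 with h2 | h2
      · exact absurd h2 hv1
      · exact ⟨1, by simp [h2], by simp [tt]⟩
  -- isolation of every involution
  have hc2 : ∀ v g : T, v ≠ 1 → v ^ 2 = 1 → Commute v g → g = 1 ∨ g = v := by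
    intro v g hv1 hv hvg
    have hg := hb v g hv1 hv hvg
    obtain ⟨c, hcv, -⟩ := hc v hv1 hv
    have h1 : (c * g * c⁻¹) ^ 2 = 1 := by
      rw [conj_pow, hg]; group
    have h2 : (c * g * c⁻¹) * t = t * (c * g * c⁻¹) := by
      have ec : c⁻¹ * t = v * c⁻¹ := by rw [← hcv]; group
      have ec2 : c * v = t * c := by rw [← hcv]; group
      calc (c * g * c⁻¹) * t = c * g * (c⁻¹ * t) := by group
        _ = c * (g * v) * c⁻¹ := by rw [ec]; group
        _ = c * (v * g) * c⁻¹ := by rw [hvg.eq]
        _ = (c * v) * g * c⁻¹ := by group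
        _ = _ := by rw [ec2]; group
    rcases hC _ h1 h2 with h | h
    · left
      have : g = c⁻¹ * (c * g * c⁻¹) * c := by group
      rw [this, h]; group
    · right
      have : g = c⁻¹ * (c * g * c⁻¹) * c := by group
      rw [this, h, hcv]
  -- every element is an involution or inverted by t
  have hd : ∀ g : T, g ^ 2 = 1 ∨ t * g * t = g⁻¹ := by
    intro g
    have hv1 : g⁻¹ * t * g ≠ 1 := by
      intro h
      apply ht1
      have : t = g * (g⁻¹ * t * g) * g⁻¹ := by group
      rw [this, h]; group
    have hv : (g⁻¹ * t * g) ^ 2 = 1 := by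
      have : g⁻¹ * t * g = g⁻¹ * t * (g⁻¹)⁻¹ := by group
      rw [this, conj_pow, ht]; group
    obtain ⟨c, hcv, hct⟩ := hc _ hv1 hv
    have h1 : Commute t (g * c⁻¹) := by
      show t * (g * c⁻¹) = g * c⁻¹ * t
      calc t * (g * c⁻¹) = g * (g⁻¹ * t * g) * c⁻¹ := by group
        _ = g * (c⁻¹ * t * c) * c⁻¹ := by rw [hcv]
        _ = _ := by group
    rcases hc2 t _ ht1 ht h1 with h | h
    · right
      have : g = c := by
        have e : g = (g * c⁻¹) * c := by group
        rw [e, h, one_mul]
      rw [this]; exact hct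
    · left
      have : g = t * c := by
        have e : g = (g * c⁻¹) * c := by group
        rw [e, h]
      rw [this, pow_two]
      calc t * c * (t * c) = (t * c * t) * c := by group
        _ = 1 := by rw [hct]; group
  -- conclusion
  intro g h hg hh
  by_contra hgh
  have hu : (g * h) ^ 2 = 1 := (hT (g * h)).resolve_left hgh
  have hu1 : g * h ≠ 1 := by
    intro e
    apply hgh
    rw [e, one_pow]
  have hg2 : g ^ 2 ≠ 1 := by
    intro e
    apply hgh
    rw [F1 g hg e, one_mul, hh]
  have hh2 : h ^ 2 ≠ 1 := by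
    intro e
    apply hgh
    rw [F1 h hh e, mul_one, hg]
  have tg := (hd g).resolve_left hg2
  have th := (hd h).resolve_left hh2
  have hhg : (h * g) ^ 2 = 1 := by
    have : h * g = g⁻¹ * (g * h) * (g⁻¹)⁻¹ := by group
    rw [this, conj_pow, hu]; group
  have e1 : t * (g * h) * t = g⁻¹ * (g * h) * g := by
    calc t * (g * h) * t = (t * g) * 1 * (h * t) := by group
      _ = (t * g) * (t * t) * (h * t) := by rw [tt]
      _ = (t * g * t) * (t * h * t) := by group
      _ = (h * g)⁻¹ := by rw [tg, th, mul_inv_rev]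
      _ = h * g := inv2 _ hhg
      _ = _ := by group
  have h1 : Commute (g * h) (g * t) := by
    show g * h * (g * t) = g * t * (g * h)
    calc g * h * (g * t) = g * (g⁻¹ * (g * h) * g) * t := by group
      _ = g * (t * (g * h) * t) * t := by rw [e1]
      _ = g * t * (g * h) * (t * t) := by group
      _ = _ := by rw [tt, mul_one]
  rcases hc2 (g * h) (g * t) hu1 hu h1 with h2 | h2
  · apply ht1
    have : g = t := by
      have e : g = g * t * t := by rw [mul_assoc, tt, mul_one]
      rw [e, h2, one_mul]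
    exact F1 t (this ▸ hg) ht
  · apply ht1
    have : t = h := mul_left_cancel h2
    exact F1 t (this ▸ hh) ht

end H446.EX
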