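import Mathlib

set_option autoImplicit false

namespace H446.EX

open Subgroup Finset

namespace Clo

variable {G : Type*} [Group G] {m : ℕ}

theorem sq_inj (hm : Odd m) {u v : G} (hu : u ^ m = 1) (hv : v ^ m = 1) (h : u ^ 2 = v ^ 2) :
    u = v := by
  obtain ⟨l, rfl⟩ := hm
  have key : ∀ w : G, w ^ (2 * l + 1) = 1 → w = (w ^ 2) ^ (l + 1) := by
    intro w hw
    rw [← pow_mul, show 2 * (l + 1) = (2 * l + 1) + 1 by ring, pow_succ, hw, one_mul]
  rw [key u hu, key v hv, h]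

theorem eq_one (hm : Odd m) {u : G} (hu : u ^ m = 1) (h : u ^ 2 = 1) : u = 1 :=
  sq_inj hm hu (one_pow m) (by rw [h, one_pow])

theorem inv_mem {x : G} (hx : x ^ m = 1) : x⁻¹ ^ m = 1 := by rw [inv_pow, hx, inv_one]

theorem pow_mem' {x : G} (hx : x ^ m = 1) (k : ℕ) : (x ^ k) ^ m = 1 := by
  rw [← pow_mul, mul_comm, pow_mul, hx, one_pow]

theorem conj_mem (s : G) (hs : s * s = 1) {y : G} (hy : y ^ m = 1) : (s * y * s) ^ m = 1 := by
  have h1 : s = s⁻¹ := eq_inv_of_mul_eq_one_left hs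
  have h2 : s * y * s = s * y * s⁻¹ := by rw [← h1]
  rw [h2, conj_pow, hy, mul_one, mul_inv_cancel]

/-- (1) -/
theorem one_ (hm : Odd m)
    (h : ∀ x y : G, x ^ m = 1 → y ^ m = 1 → (x * y) ^ m = 1 ∨ (x * y) ^ 2 = 1)
    {s y : G} (hs : s ^ 2 = 1) (hy : y ^ m = 1) (hys : (y * s) ^ m = 1) :
    (y ^ 2 * s) ^ m = 1 := by
  have hs' : s * s = 1 := by rw [← pow_two]; exact hs
  have e1 : y ^ 2 * s = y * (y * s) := by rw [pow_two, mul_assoc]
  rcases h y (y * s) hy hys with h1 | h1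
  · rw [e1]; exact h1
  · rw [← e1] at h1
    -- `s y² s = y⁻²`
    have h2 : y ^ 2 * (s * y ^ 2 * s) = 1 := by
      rw [pow_two] at h1
      calc y ^ 2 * (s * y ^ 2 * s) = y ^ 2 * s * (y ^ 2 * s) := by simp only [mul_assoc]
        _ = 1 := h1
    have h3 : s * y ^ 2 * s = (y ^ 2)⁻¹ := (inv_eq_of_mul_eq_one_right h2).symm
    have h4 : (s * y * s) ^ 2 = (y⁻¹) ^ 2 := by
      rw [inv_pow, ← h3, pow_two, pow_two]
      calc s * y * s * (s * y * s) = s * y * (s * s) * y * s := by simp only [mul_assoc]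
        _ = s * (y * y) * s := by rw [hs', mul_one]; simp only [mul_assoc]
    have h5 : s * y * s = y⁻¹ := sq_inj hm (conj_mem s hs' hy) (inv_mem hy) h4
    have h6 : (y * s) ^ 2 = 1 := by
      rw [pow_two]
      calc y * s * (y * s) = y * (s * y * s) := by simp only [mul_assoc]
        _ = 1 := by rw [h5, mul_inv_cancel]
    have h7 : y * s = 1 := eq_one hm hys h6
    rw [e1, h7, mul_one]
    exact hy

/-- (2) -/
theorem two_ (hm : Odd m)
    (h : ∀ x y : G, x ^ m = 1 → y ^ m = 1 → (x * y) ^ m = 1 ∨ (x * y) ^ 2 = 1)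
    {x y : G} (hx : x ^ m = 1) (hy : y ^ m = 1) :
    (x * y⁻¹) ^ m = 1 ∨ (x * (y ^ 2)⁻¹) ^ m = 1 := by
  by_contra hcon
  push Not at hcon
  obtain ⟨n1, n2⟩ := hcon
  set Y := y⁻¹ with hY
  have hY' : Y ^ m = 1 := inv_mem hy
  have e2 : (y ^ 2)⁻¹ = Y ^ 2 := by rw [hY, inv_pow]
  rw [e2] at n2
  have h1 : (x * Y) ^ 2 = 1 := (h x Y hx hY').resolve_left n1
  have h2 : (x * Y ^ 2) ^ 2 = 1 := (h x (Y ^ 2) hx (pow_mem' hY' 2)).resolve_left n2
  have h3 : x * Y * x = Y⁻¹ := by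
    rw [pow_two] at h1
    have : x * Y * x * Y = 1 := by
      calc x * Y * x * Y = x * Y * (x * Y) := by simp only [mul_assoc]
        _ = 1 := h1
    exact eq_inv_of_mul_eq_one_left this
  have h4 : x * Y ^ 2 * x = (Y ^ 2)⁻¹ := by
    rw [pow_two] at h2
    have : x * Y ^ 2 * x * Y ^ 2 = 1 := by
      calc x * Y ^ 2 * x * Y ^ 2 = x * Y ^ 2 * (x * Y ^ 2) := by simp only [mul_assoc]
        _ = 1 := h2
    exact eq_inv_of_mul_eq_one_left this
  have h5 : x * Y * x * (x * Y * x) = x * Y ^ 2 * x := by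
    rw [h4, h3, pow_two, mul_inv_rev]
  have h6 : x * Y * (x * x) * (Y * x) = x * Y * 1 * (Y * x) := by
    calc x * Y * (x * x) * (Y * x) = x * Y * x * (x * Y * x) := by simp only [mul_assoc]
      _ = x * Y ^ 2 * x := h5
      _ = x * Y * 1 * (Y * x) := by rw [pow_two, mul_one]; simp only [mul_assoc]
  have h7 : x * x = 1 := mul_left_cancel (mul_right_cancel h6)
  have h8 : x = 1 := eq_one hm hx (by rw [pow_two]; exact h7)
  apply n1
  rw [h8, one_mul]
  exact hY'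

end Clo

open Clo in
/-- CLO -/
theorem closure_orders {G : Type*} [Group G] {m : ℕ} (hm : Odd m)
    (h : ∀ x y : G, x ^ m = 1 → y ^ m = 1 → (x * y) ^ m = 1 ∨ (x * y) ^ 2 = 1) :
    ∀ g ∈ Subgroup.closure {x : G | x ^ m = 1}, g ^ m = 1 ∨ g ^ 2 = 1 := by
  have PP : ∀ x y : G, x ^ m = 1 → y ^ m = 1 →
      (x * y) ^ m = 1 ∨ ((x * y) ^ 2 = 1 ∧ ∃ a b : G, a ^ m = 1 ∧ b ^ m = 1 ∧ x * y = a * b) := by
    intro x y hx hy
    rcases h x y hx hy with h1 | h1
    · exact Or.inl h1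
    · exact Or.inr ⟨h1, x, y, hx, hy, rfl⟩
  have PI : ∀ x s : G, x ^ m = 1 →
      (s ^ 2 = 1 ∧ ∃ a b : G, a ^ m = 1 ∧ b ^ m = 1 ∧ s = a * b) →
      (x * s) ^ m = 1 ∨ ((x * s) ^ 2 = 1 ∧ ∃ a b : G, a ^ m = 1 ∧ b ^ m = 1 ∧ x * s = a * b) := by
    rintro x s hx ⟨hs, a, b, ha, hb, hab⟩
    have hy : a⁻¹ ^ m = 1 := inv_mem ha
    have hys : a⁻¹ * s = b := by rw [hab, inv_mul_cancel_left]
    have hys' : (a⁻¹ * s) ^ m = 1 := by rw [hys]; exact hb
    have h1 := one_ hm h hs hy hys'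
    rcases two_ hm h hx hy with h2 | h2
    · have e : x * s = (x * (a⁻¹)⁻¹) * (a⁻¹ * s) := by
        rw [mul_assoc, inv_mul_cancel_left]
      rw [e]
      exact PP _ _ h2 hys'
    · have e : x * s = (x * ((a⁻¹) ^ 2)⁻¹) * ((a⁻¹) ^ 2 * s) := by
        rw [mul_assoc, inv_mul_cancel_left]
      rw [e]
      exact PP _ _ h2 h1
  have INV : ∀ x : G,
      (x ^ m = 1 ∨ (x ^ 2 = 1 ∧ ∃ a b : G, a ^ m = 1 ∧ b ^ m = 1 ∧ x = a * b)) →
      (x⁻¹ ^ m = 1 ∨ (x⁻¹ ^ 2 = 1 ∧ ∃ a b : G, a ^ m = 1 ∧ b ^ m = 1 ∧ x⁻¹ = a * b)) := by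
    rintro x (hx | ⟨hx, a, b, ha, hb, hab⟩)
    · exact Or.inl (inv_mem hx)
    · refine Or.inr ⟨by rw [inv_pow, hx, inv_one], a, b, ha, hb, ?_⟩
      rw [← hab]
      rw [pow_two] at hx
      exact (eq_inv_of_mul_eq_one_left hx).symm
  have key : ∀ g ∈ Subgroup.closure {x : G | x ^ m = 1},
      g ^ m = 1 ∨ (g ^ 2 = 1 ∧ ∃ a b : G, a ^ m = 1 ∧ b ^ m = 1 ∧ g = a * b) := by
    intro g hg
    induction hg using Subgroup.closure_induction with
    | mem x hx => exact Or.inl hx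
    | one => exact Or.inl (one_pow m)
    | inv x _ ih => exact INV x ih
    | mul x y _ _ ihx ihy =>
      rcases ihx with hx | hx
      · rcases ihy with hy | hy
        · exact PP x y hx hy
        · exact PI x y hx hy
      · rcases ihy with hy | hy
        · have h1 := PI y⁻¹ x⁻¹ (inv_mem hy) (by
            obtain ⟨hx2, a, b, ha, hb, hab⟩ := hx
            refine ⟨by rw [inv_pow, hx2, inv_one], a, b, ha, hb, ?_⟩
            rw [← hab]
            rw [pow_two] at hx2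
            exact (eq_inv_of_mul_eq_one_left hx2).symm)
          have h2 := INV _ h1
          rwa [mul_inv_rev, inv_inv, inv_inv] at h2
        · obtain ⟨hx2, a, b, ha, hb, hab⟩ := hx
          rw [hab, mul_assoc]
          rcases PI b y hb hy with h1 | h1
          · exact PP a _ ha h1
          · exact PI a _ ha h1
  intro g hg
  rcases key g hg with h1 | ⟨h1, -⟩
  · exact Or.inl h1
  · exact Or.inr h1

end H446.EX
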