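import Mathlib

set_option autoImplicit false

namespace H446.EX

open Subgroup Finset

/-- COM, with ALP as a hypothesis -/
theorem Com.of_isolated {T : Type*} [Group T] {m : ℕ}
    (hiso : ∀ (t : T), t ≠ 1 → t ^ 2 = 1 →
      (∀ s : T, s ^ 2 = 1 → s * t = t * s → s = 1 ∨ s = t) →
      ∀ g h : T, g ^ m = 1 → h ^ m = 1 → (g * h) ^ m = 1)
    (hT : ∀ g : T, g ^ m = 1 ∨ g ^ 2 = 1)
    (hmix : ∀ i j k : T, i ^ 2 = 1 → j ^ 2 = 1 → k ^ 2 = 1 → i ≠ 1 → j ≠ 1 → i ≠ j →
      i * j = j * i → i * k = k * i)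
    (hgen : Subgroup.closure {x : T | x ^ m = 1} = ⊤) (hne : ∃ t : T, t ^ m ≠ 1) :
    ∃ S : Subgroup T, S.Normal ∧ (∀ s : T, s ∈ S ↔ s ^ 2 = 1) ∧ S ≠ ⊥ := by
  have hcomm : ∀ t k : T, t ^ 2 = 1 → k ^ 2 = 1 → t * k = k * t := by
    intro t k ht hk
    by_cases ht1 : t = 1
    · rw [ht1, one_mul, mul_one]
    by_contra hcon
    have hC : ∀ s : T, s ^ 2 = 1 → s * t = t * s → s = 1 ∨ s = t := by
      intro s hs hst
      by_contra h
      push Not at h
      exact hcon (hmix t s k ht hs hk ht1 h.1 (Ne.symm h.2) hst.symm)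
    have hmul := hiso t ht1 ht hC
    obtain ⟨g, hg⟩ := hne
    refine hg ?_
    have hgm : g ∈ Subgroup.closure {x : T | x ^ m = 1} := by rw [hgen]; trivial
    induction hgm using Subgroup.closure_induction with
    | mem x hx => exact hx
    | one => exact one_pow m
    | mul x y _ _ hx hy => exact hmul x y (by tauto) (by tauto)
    | inv x _ hx =>
      rw [inv_pow]
      by_cases h : x ^ m = 1
      · rw [h, inv_one]
      · exact absurd (hx h) h
  refine ⟨{ carrier := {s | s ^ 2 = 1}, mul_mem' := ?_, one_mem' := one_pow 2, inv_mem' := ?_ },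
    ?_, fun s => Iff.rfl, ?_⟩
  · intro a b ha hb
    change (a * b) ^ 2 = 1
    have h : Commute a b := hcomm a b ha hb
    rw [h.mul_pow, ha, hb, one_mul]
  · intro a ha
    change (a⁻¹) ^ 2 = 1
    rw [inv_pow, ha, inv_one]
  · refine ⟨fun a ha g => ?_⟩
    change (g * a * g⁻¹) ^ 2 = 1
    rw [conj_pow, ha, mul_one, mul_inv_cancel]
  · intro h
    obtain ⟨t, ht⟩ := hne
    have ht2 : t ^ 2 = 1 := (hT t).resolve_left ht
    have ht3 : t ∈ (⊥ : Subgroup T) := by rw [← h]; exact ht2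
    rw [Subgroup.mem_bot] at ht3
    exact ht (by rw [ht3, one_pow])

end H446.EX
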