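import Mathlib
import Pool.Agent.H446R9.EX.Com0
import Pool.Agent.H446R9.EX.Alp

set_option autoImplicit false

namespace H446.EX

open Subgroup Finset

/-- COM (needs the no-mixed hypothesis, proved by coset enumeration for m = 5, 9) -/
theorem involutions_subgroup {T : Type*} [Group T] {m : ℕ} (hm : Odd m)
    (hT : ∀ g : T, g ^ m = 1 ∨ g ^ 2 = 1)
    (hmix : ∀ i j k : T, i ^ 2 = 1 → j ^ 2 = 1 → k ^ 2 = 1 → i ≠ 1 → j ≠ 1 → i ≠ j →
      i * j = j * i → i * k = k * i)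
    (hgen : Subgroup.closure {x : T | x ^ m = 1} = ⊤) (hne : ∃ t : T, t ^ m ≠ 1) :
    ∃ S : Subgroup T, S.Normal ∧ (∀ s : T, s ∈ S ↔ s ^ 2 = 1) ∧ S ≠ ⊥ :=
  Com.of_isolated (isolated hm hT) hT hmix hgen hne

end H446.EX
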