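import Mathlib
import Pool.Agent.H15R2.Main

set_option autoImplicit false

namespace H446.EX

open Subgroup Finset

/-- LF -/
theorem locFin {T : Type*} [Group T] (S U : Subgroup T) [S.Normal] [U.Normal]
    (h2 : ∀ s ∈ S, s ^ 2 = 1) (hSU : S ≤ U) (hidx : S.relIndex U ≠ 0)
    (h3 : ∀ g : T, g ^ 3 ∈ U) : ∀ F : Subgroup T, F.FG → Finite F := by
  intro F hF
  have hFG : Group.FG F := (Group.fg_iff_subgroup_fg F).2 hF
  have hq : Finite (F ⧸ (U.subgroupOf F)) := by
    refine H15.Struct.finite_exp3 inferInstance ?_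
    intro g
    induction g using QuotientGroup.induction_on with
    | H g =>
      rw [← QuotientGroup.mk_pow, QuotientGroup.eq_one_iff]
      exact h3 g
  have h4 : U.relIndex F ≠ 0 := (finiteIndex_of_finite_quotient (H := U.subgroupOf F)).index_ne_zero
  have h5 : S.relIndex F ≠ 0 := by
    have h6 := relIndex_inf_mul_relIndex S U F
    rw [inf_of_le_left hSU] at h6
    rw [← h6]
    exact mul_ne_zero (fun h => hidx (relIndex_eq_zero_of_le_right inf_le_left h)) h4
  have h6 : (S.subgroupOf F).FiniteIndex := ⟨h5⟩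
  have h7 : Group.FG (S.subgroupOf F) := inferInstance
  have h8 : Finite (S.subgroupOf F) := by
    refine H15.Struct.finite_exp4 h7 ?_
    rintro ⟨g, hg⟩
    have h9 : ((g : T)) ^ 2 = 1 := h2 g hg
    apply Subtype.ext
    apply Subtype.ext
    have h10 : (g : T) ^ 4 = 1 := by
      calc (g : T) ^ 4 = ((g : T) ^ 2) ^ 2 := by rw [← pow_mul]
        _ = 1 := by rw [h9, one_pow]
    simpa using h10
  exact H15.Struct.finite_of_index _ h5 h8

end H446.EX
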