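import Mathlib
import Pool.Agent.H446R9.EX.Cert

/-!
In a group in which every element has order dividing `m` or `2` (`m = 5` or `9`), an involution
which commutes with another involution commutes with every involution.
-/

set_option autoImplicit false

namespace H446.EX

open H15.TC

/-- an element commuting with an involution has square one -/
theorem sq_of_comm {T : Type*} [Group T] {m : ℕ} (hm : Odd m)
    (hT : ∀ g : T, g ^ m = 1 ∨ g ^ 2 = 1) {u g : T} (hu : u ^ 2 = 1) (hu1 : u ≠ 1)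
    (h : u * g = g * u) : g ^ 2 = 1 := by
  rcases hT g with hg | hg
  swap
  · exact hg
  have hc : Commute u g := h
  have hum : u ^ m = u := by
    obtain ⟨k, rfl⟩ := hm
    rw [pow_succ, pow_mul, hu, one_pow, one_mul]
  rcases hT (u * g) with h1 | h1
  · rw [hc.mul_pow, hg, mul_one, hum] at h1
    exact absurd h1 hu1
  · rw [hc.mul_pow, hu, one_mul] at h1
    exact h1

theorem comm_of_sq {T : Type*} [Group T] {a b : T} (ha : a ^ 2 = 1) (hb : b ^ 2 = 1)
    (h : (a * b) ^ 2 = 1) : a * b = b * a := by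
  have h1 : a⁻¹ = a := inv_eq_of_mul_eq_one_left (by rw [← pow_two]; exact ha)
  have h2 : b⁻¹ = b := inv_eq_of_mul_eq_one_left (by rw [← pow_two]; exact hb)
  have h3 : (a * b)⁻¹ = a * b := inv_eq_of_mul_eq_one_left (by rw [← pow_two]; exact h)
  rw [← h3, mul_inv_rev, h1, h2]

/-- if `j` commutes with `i` and `k` then `i` and `k` commute -/
theorem trans_comm {T : Type*} [Group T] {m : ℕ} (hm : Odd m)
    (hT : ∀ g : T, g ^ m = 1 ∨ g ^ 2 = 1) {i j k : T} (hi : i ^ 2 = 1) (hj : j ^ 2 = 1)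
    (hk : k ^ 2 = 1) (hj1 : j ≠ 1) (h1 : i * j = j * i) (h2 : j * k = k * j) :
    i * k = k * i := by
  apply comm_of_sq hi hk
  apply sq_of_comm hm hT hj hj1
  rw [← mul_assoc, ← h1, mul_assoc, h2, mul_assoc]

/-- generators -/
def gen3 {T : Type*} [Group T] (i j k : T) : ℕ → T
  | 0 => i
  | 1 => j
  | _ => k

theorem lv0 {T : Type*} [Group T] (i j k : T) : lv (gen3 i j k) 0 = i := rfl
theorem lv2 {T : Type*} [Group T] (i j k : T) : lv (gen3 i j k) 2 = j := rfl
theorem lv4 {T : Type*} [Group T] (i j k : T) : lv (gen3 i j k) 4 = k := rfl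

section

variable {T : Type*} [Group T] {i j k : T}

theorem rel_case5 (hi : i ^ 2 = 1) (hj : j ^ 2 = 1) (hk : k ^ 2 = 1) (hij : (i * j) ^ 2 = 1)
    (h1 : (i * k) ^ 5 = 1) (h2 : (j * k) ^ 5 = 1) (h3 : (i * j * k) ^ 5 = 1)
    (h4 : (i * k * j * k) ^ 5 = 1 ∨ (i * k * j * k) ^ 2 = 1) : i = 1 := by
  rcases h4 with h4 | h4
  · have h := check_sound (gen := gen3 i j k) chk55 (by
      unfold rels55
      simp only [pow_succ, pow_zero, one_mul, ← mul_assoc] at hi hj hk hij h1 h2 h3 h4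
      intro r hr
      simp only [List.mem_cons, List.not_mem_nil, or_false] at hr
      rcases hr with rfl | rfl | rfl | rfl | rfl | rfl | rfl | rfl <;>
        simpa only [ev_cons, ev_nil, mul_one, lv0, lv2, lv4, ← mul_assoc] using ‹_›)
    simpa [ev_cons, lv0] using h
  · have h := check_sound (gen := gen3 i j k) chk52 (by
      unfold rels52
      simp only [pow_succ, pow_zero, one_mul, ← mul_assoc] at hi hj hk hij h1 h2 h3 h4
      intro r hr
      simp only [List.mem_cons, List.not_mem_nil, or_false] at hr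
      rcases hr with rfl | rfl | rfl | rfl | rfl | rfl | rfl | rfl <;>
        simpa only [ev_cons, ev_nil, mul_one, lv0, lv2, lv4, ← mul_assoc] using ‹_›)
    simpa [ev_cons, lv0] using h

theorem rel_case9 (hi : i ^ 2 = 1) (hj : j ^ 2 = 1) (hk : k ^ 2 = 1) (hij : (i * j) ^ 2 = 1)
    (h1 : (i * k) ^ 3 = 1) (h2 : (j * k) ^ 9 = 1) (h3 : (i * j * k) ^ 9 = 1)
    (h4 : (i * j * k * j * k) ^ 9 = 1 ∨ (i * j * k * j * k) ^ 2 = 1) : i = 1 := by
  rcases h4 with h4 | h4
  · have h := check_sound (gen := gen3 i j k) chk99 (by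
      unfold rels99
      simp only [pow_succ, pow_zero, one_mul, ← mul_assoc] at hi hj hk hij h1 h2 h3 h4
      intro r hr
      simp only [List.mem_cons, List.not_mem_nil, or_false] at hr
      rcases hr with rfl | rfl | rfl | rfl | rfl | rfl | rfl | rfl <;>
        simpa only [ev_cons, ev_nil, mul_one, lv0, lv2, lv4, ← mul_assoc] using ‹_›)
    simpa [ev_cons, lv0] using h
  · have h := check_sound (gen := gen3 i j k) chk92 (by
      unfold rels92
      simp only [pow_succ, pow_zero, one_mul, ← mul_assoc] at hi hj hk hij h1 h2 h3 h4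
      intro r hr
      simp only [List.mem_cons, List.not_mem_nil, or_false] at hr
      rcases hr with rfl | rfl | rfl | rfl | rfl | rfl | rfl | rfl <;>
        simpa only [ev_cons, ev_nil, mul_one, lv0, lv2, lv4, ← mul_assoc] using ‹_›)
    simpa [ev_cons, lv0] using h

end

/-- the elements `i*k`, `j*k`, `i*j*k` have order dividing `m` -/
theorem odd_prods {T : Type*} [Group T] {m : ℕ} (hm : Odd m)
    (hT : ∀ g : T, g ^ m = 1 ∨ g ^ 2 = 1)
    {i j k : T} (hi : i ^ 2 = 1) (hj : j ^ 2 = 1) (hk : k ^ 2 = 1) (hj1 : j ≠ 1)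
    (hij1 : i ≠ j) (hij : i * j = j * i) (hik : i * k ≠ k * i) :
    (i * j) ^ 2 = 1 ∧ (i * k) ^ m = 1 ∧ (j * k) ^ m = 1 ∧ (i * j * k) ^ m = 1 := by
  have hij2 : (i * j) ^ 2 = 1 := by
    rw [(show Commute i j from hij).mul_pow, hi, hj, one_mul]
  have hij0 : i * j ≠ 1 := by
    intro h
    apply hij1
    have : j⁻¹ = j := inv_eq_of_mul_eq_one_left (by rw [← pow_two]; exact hj)
    rw [← this]; exact eq_inv_of_mul_eq_one_left h
  refine ⟨hij2, ?_, ?_, ?_⟩
  · rcases hT (i * k) with h | h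
    · exact h
    · exact absurd (comm_of_sq hi hk h) hik
  · rcases hT (j * k) with h | h
    · exact h
    · exact absurd (trans_comm hm hT hi hj hk hj1 hij (comm_of_sq hj hk h)) hik
  · rcases hT (i * j * k) with h | h
    · exact h
    · refine absurd (trans_comm hm hT hi hij2 hk hij0 ?_ (comm_of_sq hij2 hk h)) hik
      rw [mul_assoc, ← hij]

/-- MX5 -/
theorem nomix5 {T : Type*} [Group T] (hT : ∀ g : T, g ^ 5 = 1 ∨ g ^ 2 = 1)
    (i j k : T) (hi : i ^ 2 = 1) (hj : j ^ 2 = 1) (hk : k ^ 2 = 1) (hi1 : i ≠ 1) (hj1 : j ≠ 1)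
    (hij1 : i ≠ j) (hij : i * j = j * i) : i * k = k * i := by
  by_contra hik
  obtain ⟨h0, h1, h2, h3⟩ := odd_prods (by decide) hT hi hj hk hj1 hij1 hij hik
  exact hi1 (rel_case5 hi hj hk h0 h1 h2 h3 (hT _))

/-- MX9 -/
theorem nomix9 {T : Type*} [Group T] (hT : ∀ g : T, g ^ 9 = 1 ∨ g ^ 2 = 1)
    (i j k : T) (hi : i ^ 2 = 1) (hj : j ^ 2 = 1) (hk : k ^ 2 = 1) (hi1 : i ≠ 1) (hj1 : j ≠ 1)
    (hij1 : i ≠ j) (hij : i * j = j * i) : i * k = k * i := by
  -- the case `(ik)^3 = 1`
  have key : ∀ k : T, k ^ 2 = 1 → (i * k) ^ 3 = 1 → i * k = k * i := by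
    intro k hk h3
    by_contra hik
    obtain ⟨h0, h1, h2, h4⟩ := odd_prods (by decide) hT hi hj hk hj1 hij1 hij hik
    exact hi1 (rel_case9 hi hj hk h0 h3 h2 h4 (hT _))
  by_contra hik
  obtain ⟨h0, h1, h2, h4⟩ := odd_prods (by decide : Odd 9) hT hi hj hk hj1 hij1 hij hik
  have hi' : i * i = 1 := by rw [← pow_two]; exact hi
  have hk' : k * k = 1 := by rw [← pow_two]; exact hk
  have e1 : i * (i * (i * k) ^ 3) = (i * k) ^ 3 := by rw [← mul_assoc, hi', one_mul]
  have e2 : (i * (i * k) ^ 3) = k * i * k * i * k := by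
    calc i * (i * k) ^ 3 = (i * i) * k * i * k * i * k := by simp [pow_succ, mul_assoc]
      _ = k * i * k * i * k := by rw [hi', one_mul]
  have e3 : (i * (i * k) ^ 3) ^ 2 = 1 := by
    rw [e2]
    calc (k * i * k * i * k) ^ 2 = k * i * k * i * (k * k) * i * k * i * k := by
          simp [pow_succ, mul_assoc]
      _ = k * i * k * (i * i) * k * i * k := by rw [hk']; simp [mul_assoc]
      _ = k * i * (k * k) * i * k := by rw [hi']; simp [mul_assoc]
      _ = k * (i * i) * k := by rw [hk']; simp [mul_assoc]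
      _ = 1 := by rw [hi', mul_one, hk']
  have h5 : (i * (i * (i * k) ^ 3)) ^ 3 = 1 := by
    rw [e1, ← pow_mul]; exact h1
  have h6 := key _ e3 h5
  have h7 : (i * (i * (i * k) ^ 3)) ^ 2 = 1 := by
    rw [(show Commute i (i * (i * k) ^ 3) from h6).mul_pow, hi, e3, one_mul]
  rw [e1] at h7
  have h8 : (i * k) ^ 3 = 1 := by
    have h9 : (i * k) ^ 9 = 1 := h1
    have : ((i * k) ^ 3) ^ 3 = 1 := by rw [← pow_mul]; exact h9
    rw [pow_succ, h7, one_mul] at this
    exact this
  exact hik (key k hk h8)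

end H446.EX
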