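import Mathlib

set_option autoImplicit false

namespace H446.EX

open Subgroup Finset

/-- R5 -/
theorem ring5 {R : Type*} [Ring R] (h2 : (1 : R) + 1 = 0) (x y z : R)
    (hyz : y * z = 1) (hzy : z * y = 1)
    (hx : ∑ k ∈ range 5, x ^ k = 0)
    (hxy : ∀ a : ℕ, a < 5 → ∑ k ∈ range 5, (x ^ a * y) ^ k = 0) : (1 : R) = 0 := by
  have hdbl : ∀ u : R, u + u = 0 := fun u => by
    have : u + u = (1 + 1) * u := by rw [add_mul, one_mul]
    rw [this, h2, zero_mul]
  have pow5 : ∀ w : R, ∑ k ∈ range 5, w ^ k = 0 → w ^ 5 = 1 := by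
    intro w hw
    have h := mul_geom_sum w 5
    rw [hw, mul_zero] at h
    exact sub_eq_zero.mp h.symm
  have hx5 : x ^ 5 = 1 := pow5 x hx
  have hmod : ∀ m : ℕ, x ^ (m % 5) = x ^ m := by
    intro m
    conv_rhs => rw [← Nat.div_add_mod m 5, pow_add, pow_mul, hx5, one_pow, one_mul]
  obtain ⟨X, hX⟩ : ∃ X : ZMod 5 → R, ∀ a, X a = x ^ (ZMod.val a) := ⟨_, fun _ => rfl⟩
  have Xadd : ∀ a b, X (a + b) = X a * X b := by
    intro a b
    rw [hX, hX, hX, ZMod.val_add, hmod, pow_add]
  have X0 : X 0 = 1 := by rw [hX]; simp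
  have Xinv : ∀ a, X (-a) * X a = 1 := by intro a; rw [← Xadd, neg_add_cancel, X0]
  have Xinv' : ∀ a, X a * X (-a) = 1 := by intro a; rw [← Xadd, add_neg_cancel, X0]
  have Xsum : ∑ a, X a = 0 := by
    rw [← hx, Finset.sum_range]
    exact Finset.sum_congr rfl fun a _ => hX a
  have shift : ∀ (f : ZMod 5 → R) (b : ZMod 5), ∑ a, f (a + b) = ∑ a, f a := fun f b =>
    Fintype.sum_equiv (Equiv.addRight b) _ _ (fun _ => rfl)
  have negs : ∀ (f : ZMod 5 → R), ∑ a, f (-a) = ∑ a, f a := fun f =>
    Fintype.sum_equiv (Equiv.neg (ZMod 5)) _ _ (fun _ => rfl)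
  have cst : ∀ u : R, ∑ _a : ZMod 5, u = u := by
    intro u
    rw [Finset.sum_const, Finset.card_univ, ZMod.card]
    have : (5 : ℕ) • u = (u + u) + (u + u) + u := by
      rw [show (5 : ℕ) = 1 + 1 + 1 + 1 + 1 from rfl]
      simp only [add_smul, one_smul]; abel
    rw [this, hdbl, zero_add]
  obtain ⟨Q, hQ⟩ : ∃ Q : R → R, ∀ u, Q u = ∑ a, X a * u * X a := ⟨_, fun _ => rfl⟩
  have XQ : ∀ b u, X b * Q u = Q u * X (-b) := by
    intro b u
    rw [hQ, Finset.mul_sum, Finset.sum_mul, ← shift (fun a => X a * u * X a * X (-b)) b]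
    refine Finset.sum_congr rfl fun a _ => ?_
    have e1 : X (a + b) = X b * X a := by rw [add_comm, Xadd]
    have e2 : X (a + b) * X (-b) = X a := by rw [Xadd, mul_assoc, Xinv', mul_one]
    calc X b * (X a * u * X a) = (X b * X a) * u * X a := by simp only [mul_assoc]
      _ = X (a + b) * u * (X (a + b) * X (-b)) := by rw [← e1, e2]
      _ = X (a + b) * u * X (a + b) * X (-b) := by simp only [mul_assoc]
  have Qadd : ∀ u v, Q (u + v) = Q u + Q v := by
    intro u v
    rw [hQ, hQ, hQ, ← Finset.sum_add_distrib]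
    exact Finset.sum_congr rfl fun a _ => by rw [mul_add, add_mul]
  have Qzero : Q 0 = 0 := by rw [hQ]; simp
  have QQ : ∀ u, Q (Q u) = Q u := by
    intro u
    rw [hQ (Q u)]
    rw [← cst (Q u)]
    refine Finset.sum_congr rfl fun b _ => ?_
    rw [cst, XQ, mul_assoc, Xinv, mul_one]
  -- the relations `N a`
  have N : ∀ a : ZMod 5, 1 + X a * y + X a * y * (X a * y) + z * X (-a) * (z * X (-a)) +
      z * X (-a) = 0 := by
    intro a
    have h := hxy (ZMod.val a) (ZMod.val_lt a)
    rw [← hX a] at h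
    have h5 := pow5 _ h
    set w := X a * y with hw
    set v := z * X (-a) with hv
    have hwv : w * v = 1 := by
      rw [hw, hv, mul_assoc, ← mul_assoc y, hyz, one_mul, Xinv']
    have h4 : w ^ 4 = v := by
      calc w ^ 4 = w ^ 4 * (w * v) := by rw [hwv, mul_one]
        _ = w ^ 5 * v := by rw [← mul_assoc, ← pow_succ]
        _ = v := by rw [h5, one_mul]
    have h3 : w ^ 3 = v * v := by
      calc w ^ 3 = w ^ 3 * (w * v) := by rw [hwv, mul_one]
        _ = w ^ 4 * v := by rw [← mul_assoc, ← pow_succ]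
        _ = v * v := by rw [h4]
    simp only [Finset.sum_range_succ, Finset.range_zero, Finset.sum_empty, zero_add, pow_zero,
      pow_one, h3, h4] at h
    rw [pow_two] at h
    exact h
  -- first relation
  have K1 : ∀ a : ZMod 5, X (-a) + y + y * X a * y + X (-a) * z * X (-a) * z * X (-a) +
      X (-a) * z * X (-a) = 0 := by
    intro a
    have h : X (-a) * (1 + X a * y + X a * y * (X a * y) + z * X (-a) * (z * X (-a)) +
      z * X (-a)) = 0 := by rw [N a, mul_zero]
    have e1 : X (-a) * (X a * y) = y := by rw [← mul_assoc, Xinv, one_mul]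
    have e2 : X (-a) * (X a * y * (X a * y)) = y * X a * y := by
      calc X (-a) * (X a * y * (X a * y)) = (X (-a) * (X a * y)) * (X a * y) := by
            simp only [mul_assoc]
        _ = y * X a * y := by rw [e1]; simp only [mul_assoc]
    rw [mul_add, mul_add, mul_add, mul_add, mul_one, e1, e2] at h
    simpa only [mul_assoc] using h
  obtain ⟨W, hW⟩ : ∃ W : R, W = ∑ a, X a * z * X a * z * X a := ⟨_, rfl⟩
  have E1 : y + W + Q z = 0 := by
    have h : ∑ a : ZMod 5, (X (-a) + y + y * X a * y + X (-a) * z * X (-a) * z * X (-a) +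
      X (-a) * z * X (-a)) = 0 := Finset.sum_eq_zero fun a _ => K1 a
    simp only [Finset.sum_add_distrib] at h
    rw [negs (fun a => X a), Xsum, cst, negs (fun a => X a * z * X a * z * X a),
      negs (fun a => X a * z * X a), ← hW, ← hQ z, ← Finset.sum_mul, ← Finset.mul_sum, Xsum] at h
    simpa using h
  have QW : Q W = 0 := by
    rw [hQ, hW]
    have h : ∀ b, X b * (∑ a, X a * z * X a * z * X a) * X b =
        ∑ a, X (b + a) * z * X a * z * X (b + a) := by
      intro b
      rw [Finset.mul_sum, Finset.sum_mul]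
      refine Finset.sum_congr rfl fun a _ => ?_
      have e1 : X (b + a) = X b * X a := Xadd b a
      have e2 : X (b + a) = X a * X b := by rw [add_comm, Xadd]
      calc X b * (X a * z * X a * z * X a) * X b = (X b * X a) * z * X a * z * (X a * X b) := by
            simp only [mul_assoc]
        _ = _ := by rw [← e1, ← e2]
    rw [Finset.sum_congr rfl fun b _ => h b, Finset.sum_comm]
    have h' : ∀ a : ZMod 5, ∑ b, X (b + a) * z * X a * z * X (b + a) =
        ∑ c, X c * z * X a * z * X c := by
      intro a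
      exact shift (fun c => X c * z * X a * z * X c) a
    rw [Finset.sum_congr rfl fun a _ => h' a, Finset.sum_comm]
    refine Finset.sum_eq_zero fun c _ => ?_
    have : ∑ a, X c * z * X a * z * X c = X c * z * (∑ a, X a) * z * X c := by
      rw [Finset.mul_sum, Finset.sum_mul, Finset.sum_mul]
    rw [this, Xsum]
    simp
  have E2 : Q y + Q z = 0 := by
    have h := congrArg Q E1
    rw [Qadd, Qadd, QW, QQ, Qzero, add_zero] at h
    exact h
  have Eyz : Q y = Q z := by
    calc Q y = Q y + (Q z + Q z) := by rw [hdbl, add_zero]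
      _ = (Q y + Q z) + Q z := by rw [add_assoc]
      _ = Q z := by rw [E2, zero_add]
  -- second relation
  have E3 : 1 + Q y * y + z * Q z = 0 := by
    have h : ∑ a : ZMod 5, (1 + X a * y + X a * y * (X a * y) + z * X (-a) * (z * X (-a)) +
      z * X (-a)) = 0 := Finset.sum_eq_zero fun a _ => N a
    simp only [Finset.sum_add_distrib] at h
    rw [cst, ← Finset.sum_mul, Xsum, ← Finset.mul_sum, negs (fun a => X a), Xsum] at h
    have f1 : ∑ a, X a * y * (X a * y) = Q y * y := by
      rw [hQ, Finset.sum_mul]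
      exact Finset.sum_congr rfl fun a _ => by simp only [mul_assoc]
    have f2 : ∑ a, z * X (-a) * (z * X (-a)) = z * Q z := by
      rw [hQ, Finset.mul_sum, ← negs (fun a => z * (X a * z * X a))]
      exact Finset.sum_congr rfl fun a _ => by simp only [mul_assoc]
    rw [f1, f2] at h
    simpa using h
  have E4 : ∀ b : ZMod 5, 1 + Q y * (X (-b) * y * X (-b)) + X b * z * X b * Q z = 0 := by
    intro b
    have h : X b * (1 + Q y * y + z * Q z) * X (-b) = 0 := by rw [E3]; simp
    have g1 : X b * (Q y * y) * X (-b) = Q y * (X (-b) * y * X (-b)) := by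
      calc X b * (Q y * y) * X (-b) = (X b * Q y) * y * X (-b) := by simp only [mul_assoc]
        _ = _ := by rw [XQ]; simp only [mul_assoc]
    have g2 : X b * (z * Q z) * X (-b) = X b * z * X b * Q z := by
      calc X b * (z * Q z) * X (-b) = X b * z * (Q z * X (-b)) := by simp only [mul_assoc]
        _ = _ := by rw [← XQ]; simp only [mul_assoc]
    rw [mul_add, mul_add, add_mul, add_mul, mul_one, Xinv', g1, g2] at h
    exact h
  have E5 : 1 + Q y * Q y + Q z * Q z = 0 := by
    have h : ∑ b : ZMod 5, (1 + Q y * (X (-b) * y * X (-b)) + X b * z * X b * Q z) = 0 :=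
      Finset.sum_eq_zero fun b _ => E4 b
    simp only [Finset.sum_add_distrib] at h
    rw [cst, ← Finset.mul_sum, negs (fun b => X b * y * X b), ← hQ y, ← Finset.sum_mul,
      ← hQ z] at h
    exact h
  rw [Eyz, add_assoc, hdbl, add_zero] at E5
  exact E5

end H446.EX
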