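import Pool.Agent.H446R9.EX.Act
import Pool.Agent.H446R9.EX.R5

set_option autoImplicit false

namespace H446.EX

open Subgroup Finset

universe u

/-- ST5 -/
theorem struct5 {T : Type u} [Group T] (hT : ∀ g : T, g ^ 5 = 1 ∨ g ^ 2 = 1)
    (S : Subgroup T) [S.Normal] (hS : ∀ s : T, s ∈ S ↔ s ^ 2 = 1) (hne : S ≠ ⊥) :
    S.index ≠ 0 := by
  by_cases htop : S = ⊤
  · rw [htop, Subgroup.index_top]
    exact one_ne_zero
  obtain ⟨x, hx⟩ : ∃ x : T, x ∉ S := by
    by_contra hcon
    push Not at hcon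
    exact htop (eq_top_iff.mpr fun g _ => hcon g)
  have claim : ∀ y : T, ∃ a : ℕ, a < 5 ∧ x ^ a * y ∈ S := by
    intro y
    by_contra hcon
    push Not at hcon
    obtain ⟨R, _, _, φ, h2, hφ⟩ := exists_ring S (fun s hs => (hS s).mp hs) hne
    have key : ∀ w : T, w ∉ S → ∑ k ∈ range 5, φ w ^ k = 0 := by
      intro w hw
      refine hφ w 5 ?_
      intro s hs
      have h1 : s * w ∉ S := fun h => hw ((Subgroup.mul_mem_cancel_left S hs).mp h)
      rcases hT (s * w) with h | h
      · exact h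
      · exact absurd ((hS _).mpr h) h1
    have h3 : (1 : R) = 0 := by
      refine ring5 h2 (φ x) (φ y) (φ y⁻¹) ?_ ?_ (key x hx) ?_
      · rw [← map_mul, mul_inv_cancel, map_one]
      · rw [← map_mul, inv_mul_cancel, map_one]
      · intro a ha
        rw [← map_pow, ← map_mul]
        exact key _ (hcon a ha)
    exact one_ne_zero h3
  have hfin : Finite (T ⧸ S) := by
    refine Finite.of_surjective (fun a : Fin 5 => (QuotientGroup.mk ((x ^ (a : ℕ))⁻¹) : T ⧸ S)) ?_
    intro q
    induction q using QuotientGroup.induction_on with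
    | H y =>
      obtain ⟨a, ha, hay⟩ := claim y
      refine ⟨⟨a, ha⟩, ?_⟩
      rw [QuotientGroup.eq]
      simpa using hay
  exact Subgroup.index_ne_zero_of_finite

end H446.EX
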