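import Mathlib

set_option autoImplicit false

namespace H446.EX

open Subgroup Finset

theorem ring9_cube {R : Type*} [Ring R] (h2 : (1 : R) + 1 = 0) (w wi : R) (h : w * wi = 1)
    (h' : wi * w = 1) (hw : 1 + w ^ 3 + w ^ 6 = 0) : (w + wi) ^ 3 = 1 + (w + wi) := by
  have e1 : wi ^ 3 * w ^ 3 = 1 := by
    calc wi ^ 3 * w ^ 3 = wi * (wi * ((wi * w) * w)) * w := by noncomm_ring
      _ = 1 := by rw [h', one_mul, h', mul_one, h']
  have e2 : wi ^ 3 + 1 + w ^ 3 = 0 := by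
    calc wi ^ 3 + 1 + w ^ 3 = wi ^ 3 + wi ^ 3 * w ^ 3 + (wi ^ 3 * w ^ 3) * w ^ 3 := by
          rw [e1, one_mul]
      _ = wi ^ 3 * (1 + w ^ 3 + w ^ 6) := by noncomm_ring
      _ = 0 := by rw [hw, mul_zero]
  have e3 : (w + wi) ^ 3 = w ^ 3 + wi ^ 3 + w * (w * wi) + w * (wi * w) + (wi * w) * w +
      (w * wi) * wi + (wi * w) * wi + wi * (wi * w) := by noncomm_ring
  rw [e3, h, h']
  simp only [mul_one, one_mul]
  have e4 : w + w = 0 := by
    calc w + w = w * (1 + 1) := by noncomm_ring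
      _ = 0 := by rw [h2, mul_zero]
  have e5 : wi + wi = 0 := by
    calc wi + wi = wi * (1 + 1) := by noncomm_ring
      _ = 0 := by rw [h2, mul_zero]
  have e6 : w ^ 3 + wi ^ 3 = 1 := by
    calc w ^ 3 + wi ^ 3 = (wi ^ 3 + 1 + w ^ 3) + 1 - (1 + 1) := by noncomm_ring
      _ = 1 := by rw [e2, h2]; noncomm_ring
  calc w ^ 3 + wi ^ 3 + w + w + w + wi + wi + wi
      = (w ^ 3 + wi ^ 3) + (w + w) + (wi + wi) + (w + wi) := by noncomm_ring
    _ = 1 + (w + wi) := by rw [e6, e4, e5, add_zero, add_zero]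

theorem ring9_inv {R : Type*} [Ring R] (h2 : (1 : R) + 1 = 0) (v : R) (h : v * v = 1)
    (hv : 1 + v + v ^ 2 = 0 ∨ 1 + v ^ 3 + v ^ 6 = 0) : (1 : R) = 0 := by
  have key : 1 + v + 1 = 0 → (1 : R) = 0 := by
    intro h1
    have h3 : v = 0 := by
      calc v = (1 + v + 1) - (1 + 1) := by noncomm_ring
        _ = 0 := by rw [h1, h2, sub_zero]
    rw [← h, h3, zero_mul]
  rcases hv with h1 | h1
  · apply key
    rw [← h1, pow_two, h]
  · apply key
    have e1 : v ^ 3 = v := by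
      calc v ^ 3 = (v * v) * v := by noncomm_ring
        _ = v := by rw [h, one_mul]
    have e2 : v ^ 6 = 1 := by
      calc v ^ 6 = (v * v) * (v * v) * (v * v) := by noncomm_ring
        _ = 1 := by rw [h, one_mul, one_mul]
    rw [← h1, e1, e2]

/-- if `1 + w + w ^ 2 = 0` then `w + w⁻¹ = 1` -/
theorem ring9_one {R : Type*} [Ring R] (h2 : (1 : R) + 1 = 0) (w wi : R) (h : w * wi = 1)
    (hw : 1 + w + w ^ 2 = 0) : w + wi = 1 := by
  have e1 : wi + 1 + w = 0 := by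
    calc wi + 1 + w = wi + w * wi + w * (w * wi) := by rw [h, mul_one]
      _ = (1 + w + w ^ 2) * wi := by noncomm_ring
      _ = 0 := by rw [hw, zero_mul]
  calc w + wi = (wi + 1 + w) + 1 - (1 + 1) := by noncomm_ring
    _ = 1 := by rw [e1, h2]; noncomm_ring

theorem ring9_sum {R : Type*} [Ring R] (x : R) : ∑ k ∈ range 3, x ^ k = 1 + x + x ^ 2 := by
  simp [Finset.sum_range_succ]

theorem ring9_sum3 {R : Type*} [Ring R] (x : R) :
    ∑ k ∈ range 3, (x ^ 3) ^ k = 1 + x ^ 3 + x ^ 6 := by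
  simp only [Finset.sum_range_succ, Finset.sum_range_zero, zero_add, ← pow_mul, Nat.reduceMul,
    mul_zero, pow_zero]

/-- R9 -/
theorem ring9 {R : Type*} [Ring R] (h2 : (1 : R) + 1 = 0) (x y : R)
    (hx : ∑ k ∈ range 3, x ^ k = 0) (hy : ∑ k ∈ range 3, y ^ k = 0)
    (h1 : ∑ k ∈ range 3, (x * y) ^ k = 0 ∨ ∑ k ∈ range 3, ((x * y) ^ 3) ^ k = 0)
    (h3 : ∑ k ∈ range 3, (x ^ 2 * y) ^ k = 0 ∨ ∑ k ∈ range 3, ((x ^ 2 * y) ^ 3) ^ k = 0) :
    (1 : R) = 0 := by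
  rw [ring9_sum] at hx hy
  rw [ring9_sum, ring9_sum3] at h1 h3
  have dbl : ∀ a : R, a + a = 0 := by
    intro a
    calc a + a = a * (1 + 1) := by noncomm_ring
      _ = 0 := by rw [h2, mul_zero]
  have sq : ∀ a : R, 1 + a + a ^ 2 = 0 → a ^ 2 = 1 + a := by
    intro a ha
    calc a ^ 2 = (1 + a + a ^ 2) + (1 + a) - ((1 + 1) + (a + a)) := by noncomm_ring
      _ = 1 + a := by rw [ha, h2, dbl]; noncomm_ring
  have cb : ∀ a : R, 1 + a + a ^ 2 = 0 → a * a ^ 2 = 1 := by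
    intro a ha
    calc a * a ^ 2 = a * (1 + a + a ^ 2) - (1 + a + a ^ 2) + 1 := by noncomm_ring
      _ = 1 := by rw [ha]; noncomm_ring
  have cb' : ∀ a : R, 1 + a + a ^ 2 = 0 → a ^ 2 * a = 1 := by
    intro a ha
    rw [← cb a ha]
    noncomm_ring
  -- `w = x y`, `w⁻¹ = y² x²`
  have w1 : (x * y) * (y ^ 2 * x ^ 2) = 1 := by
    calc (x * y) * (y ^ 2 * x ^ 2) = x * (y * y ^ 2) * x ^ 2 := by noncomm_ring
      _ = 1 := by rw [cb y hy, mul_one, cb x hx]
  have w2 : (y ^ 2 * x ^ 2) * (x * y) = 1 := by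
    calc (y ^ 2 * x ^ 2) * (x * y) = y ^ 2 * (x ^ 2 * x) * y := by noncomm_ring
      _ = 1 := by rw [cb' x hx, mul_one, cb' y hy]
  -- `v = x² y`, `v⁻¹ = y² x`
  have v1 : (x ^ 2 * y) * (y ^ 2 * x) = 1 := by
    calc (x ^ 2 * y) * (y ^ 2 * x) = x ^ 2 * (y * y ^ 2) * x := by noncomm_ring
      _ = 1 := by rw [cb y hy, mul_one, cb' x hx]
  have v2 : (y ^ 2 * x) * (x ^ 2 * y) = 1 := by
    calc (y ^ 2 * x) * (x ^ 2 * y) = y ^ 2 * (x * x ^ 2) * y := by noncomm_ring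
      _ = 1 := by rw [cb x hx, mul_one, cb' y hy]
  have hcd : x * y + y ^ 2 * x ^ 2 = 1 + (x ^ 2 * y + y ^ 2 * x) := by
    rw [sq x hx, sq y hy]
    calc x * y + (1 + y) * (1 + x) = 1 + ((1 + x) * y + (1 + y) * x) := by noncomm_ring
      _ = _ := rfl
  have hself : ∀ a b : R, a + b = 0 → a = b := by
    intro a b hab
    calc a = (a + b) + b - (b + b) := by noncomm_ring
      _ = b := by rw [hab, dbl]; noncomm_ring
  rcases h1 with h1 | h1
  · have e1 := ring9_one h2 _ _ w1 h1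
    rw [e1] at hcd
    have e2 : x ^ 2 * y + y ^ 2 * x = 0 := by
      calc x ^ 2 * y + y ^ 2 * x = (1 + (x ^ 2 * y + y ^ 2 * x)) - 1 := by noncomm_ring
        _ = 0 := by rw [← hcd, sub_self]
    have e3 := hself _ _ e2
    rw [← e3] at v1
    exact ring9_inv h2 _ v1 h3
  · rcases h3 with h3 | h3
    · have e1 := ring9_one h2 _ _ v1 h3
      rw [e1, h2] at hcd
      have e3 := hself _ _ hcd
      rw [← e3] at w1
      exact ring9_inv h2 _ w1 (Or.inr h1)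
    · have e1 := ring9_cube h2 _ _ w1 w2 h1
      have e2 := ring9_cube h2 _ _ v1 v2 h3
      rw [hcd] at e1
      set d := x ^ 2 * y + y ^ 2 * x with hd
      -- `(1 + d)³ = 1 + (1 + d)`, `d³ = 1 + d`
      have e3 : (1 + d) ^ 3 = 1 + (d + d) + d + (d ^ 2 + d ^ 2) + d ^ 2 + d ^ 3 := by noncomm_ring
      rw [e3, dbl, dbl, e2] at e1
      have e4 : d ^ 2 = d := by
        apply hself
        calc d ^ 2 + d = (1 + 0 + d + 0 + d ^ 2 + (1 + d)) - (1 + (1 + d)) + (1 + 1) - (1 + 1) := by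
              noncomm_ring
          _ = 0 := by rw [e1, h2]; noncomm_ring
      have e5 : d ^ 3 = d := by
        calc d ^ 3 = d ^ 2 * d := by noncomm_ring
          _ = d := by rw [e4, ← pow_two, e4]
      rw [e5] at e2
      calc (1 : R) = (1 + d) - d := by noncomm_ring
        _ = 0 := by rw [← e2, sub_self]

end H446.EX
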