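import Mathlib

set_option autoImplicit false

namespace H446.EX

open Subgroup Finset

universe v

/-- ST9 from the statements of R9 and ACT -/
theorem struct9_of {T : Type*} [Group T] (hT : ∀ g : T, g ^ 9 = 1 ∨ g ^ 2 = 1)
    (S : Subgroup T) [S.Normal] (hS : ∀ s : T, s ∈ S ↔ s ^ 2 = 1)
    (hAct : ∃ (R : Type v) (_ : Ring R) (_ : Nontrivial R) (φ : T →* R), (1 : R) + 1 = 0 ∧
      ∀ (w : T) (p : ℕ), (∀ s ∈ S, (s * w) ^ p = 1) → ∑ k ∈ range p, φ w ^ k = 0)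
    (hR9 : ∀ {R : Type v} [Ring R] (_h2 : (1 : R) + 1 = 0) (x y : R)
      (_hx : ∑ k ∈ range 3, x ^ k = 0) (_hy : ∑ k ∈ range 3, y ^ k = 0)
      (_h1 : ∑ k ∈ range 3, (x * y) ^ k = 0 ∨ ∑ k ∈ range 3, ((x * y) ^ 3) ^ k = 0)
      (_h3 : ∑ k ∈ range 3, (x ^ 2 * y) ^ k = 0 ∨ ∑ k ∈ range 3, ((x ^ 2 * y) ^ 3) ^ k = 0),
      (1 : R) = 0) :
    ∃ U : Subgroup T, U.Normal ∧ S ≤ U ∧ S.relIndex U ≠ 0 ∧ ∀ g : T, g ^ 3 ∈ U := by
  have F1 : ∀ g : T, g ∉ S → g ^ 9 = 1 := by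
    intro g hg
    rcases hT g with h | h
    · exact h
    · exact absurd ((hS g).2 h) hg
  have F2 : ∀ g : T, g ∉ S → g ^ 3 ∈ S → g ^ 3 = 1 := by
    intro g hg h3
    have h9 := F1 g hg
    have h6 : (g ^ 3) ^ 2 = 1 := (hS _).1 h3
    rw [← pow_mul] at h6
    have e : g ^ 9 = g ^ (3 * 2) * g ^ 3 := by rw [← pow_add]
    rw [h9, h6, one_mul] at e
    exact e.symm
  have F9 : ∀ g : T, (g ^ 3) ^ 3 ∈ S := by
    intro g
    rw [← pow_mul]
    by_cases hg : g ∈ S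
    · exact S.pow_mem hg _
    · have h := F1 g hg
      show g ^ 9 ∈ S
      rw [h]
      exact S.one_mem
  by_cases hA : ∀ g : T, g ^ 3 ∈ S → g ∈ S
  · refine ⟨S, inferInstance, le_rfl, ?_, fun g => hA _ (F9 g)⟩
    rw [Subgroup.relIndex_self]
    exact one_ne_zero
  push Not at hA
  obtain ⟨x, hx3, hxS⟩ := hA
  obtain ⟨R, _, _, φ, h2, hφ⟩ := hAct
  have hq : ∀ g : T, g ∈ S ↔ (g : T ⧸ S) = 1 := fun g => (QuotientGroup.eq_one_iff g).symm
  have R1 : ∀ w : T, w ∉ S → w ^ 3 ∈ S → ∑ k ∈ range 3, φ w ^ k = 0 := by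
    intro w hw h3
    refine hφ w 3 fun s hs => F2 _ ?_ ?_
    · intro h
      exact hw ((S.mul_mem_cancel_left hs).1 h)
    · rw [hq] at h3 hs ⊢
      rw [QuotientGroup.mk_pow] at h3 ⊢
      rw [QuotientGroup.mk_mul, hs, one_mul]
      exact h3
  have R2 : ∀ w : T, w ∉ S → ∑ k ∈ range 3, φ w ^ k = 0 ∨ ∑ k ∈ range 3, (φ w ^ 3) ^ k = 0 := by
    intro w hw
    by_cases h3 : w ^ 3 ∈ S
    · exact Or.inl (R1 w hw h3)
    · right
      have h := R1 (w ^ 3) h3 (F9 w)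
      rw [map_pow] at h
      exact h
  have claim : ∀ y : T, y ^ 3 ∈ S → ∃ a : ℕ, x ^ a * y ∈ S := by
    intro y hy
    by_contra hc
    push Not at hc
    have h0 : y ∉ S := by
      have := hc 0
      rwa [pow_zero, one_mul] at this
    have h1 : x * y ∉ S := by
      have := hc 1
      rwa [pow_one] at this
    have h3 : x ^ 2 * y ∉ S := hc 2
    have r1 := R2 _ h1
    have r3 := R2 _ h3
    rw [map_mul] at r1
    rw [map_mul, map_pow] at r3
    exact one_ne_zero (hR9 h2 (φ x) (φ y) (R1 x hxS hx3) (R1 y h0 hy) r1 r3)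
  set z : T ⧸ S := (x : T ⧸ S) with hz
  have hz3 : z ^ 3 = 1 := by
    rw [hz, ← QuotientGroup.mk_pow]
    exact (hq _).1 hx3
  set U : Subgroup T := (Subgroup.zpowers z).comap (QuotientGroup.mk' S) with hU
  have hUmem : ∀ g : T, g ∈ U ↔ g ^ 3 ∈ S := by
    intro g
    rw [hU, Subgroup.mem_comap, QuotientGroup.mk'_apply]
    constructor
    · intro h
      obtain ⟨k, hk⟩ := Subgroup.mem_zpowers_iff.1 h
      rw [hq, QuotientGroup.mk_pow, ← hk, ← zpow_natCast, ← zpow_mul, mul_comm, zpow_mul,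
        zpow_natCast, hz3, one_zpow]
    · intro h
      obtain ⟨a, ha⟩ := claim g h
      rw [hq, QuotientGroup.mk_mul, QuotientGroup.mk_pow, ← hz] at ha
      have e : (g : T ⧸ S) = (z ^ a)⁻¹ := (inv_eq_of_mul_eq_one_right ha).symm
      rw [e]
      exact inv_mem (Subgroup.npow_mem_zpowers z a)
  refine ⟨U, ⟨fun g hg n => ?_⟩, ?_, ?_, fun g => (hUmem _).2 (F9 g)⟩
  · rw [hUmem] at hg ⊢
    rw [conj_pow]
    exact Subgroup.Normal.conj_mem inferInstance _ hg n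
  · intro g hg
    exact (hUmem g).2 (S.pow_mem hg 3)
  · have e : S = (⊥ : Subgroup (T ⧸ S)).comap (QuotientGroup.mk' S) := by
      rw [MonoidHom.comap_bot, QuotientGroup.ker_mk']
    have h1 : S.relIndex U = (⊥ : Subgroup (T ⧸ S)).relIndex (U.map (QuotientGroup.mk' S)) := by
      conv_lhs => rw [e]
      rw [Subgroup.relIndex_comap]
    rw [h1, hU, Subgroup.map_comap_eq_self_of_surjective (QuotientGroup.mk'_surjective S),
      Subgroup.relIndex_bot_left, Nat.card_zpowers]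
    have h2 : IsOfFinOrder z := isOfFinOrder_iff_pow_eq_one.2 ⟨3, by norm_num, hz3⟩
    exact h2.orderOf_pos.ne'

end H446.EX
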