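import Mathlib
import Pool.Agent.H446R9.EX.R9
import Pool.Agent.H446R9.EX.Act
import Pool.Agent.H446R9.EX.St9

set_option autoImplicit false

namespace H446.EX

open Subgroup Finset

/-- ST9 -/
theorem struct9 {T : Type*} [Group T] (hT : ∀ g : T, g ^ 9 = 1 ∨ g ^ 2 = 1)
    (S : Subgroup T) [S.Normal] (hS : ∀ s : T, s ∈ S ↔ s ^ 2 = 1) (hne : S ≠ ⊥) :
    ∃ U : Subgroup T, U.Normal ∧ S ≤ U ∧ S.relIndex U ≠ 0 ∧ ∀ g : T, g ^ 3 ∈ U :=
  struct9_of hT S hS (exists_ring S (fun s hs => (hS s).1 hs) hne)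
    (fun h2 x y hx hy h1 h3 => ring9 h2 x y hx hy h1 h3)

end H446.EX
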