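import Pool.Agent.H446R9.EX.DicCore
import Pool.Agent.H446R9.EX.Clo
import Pool.Agent.H446R9.EX.Com
import Pool.Agent.H446R9.EX.Mix
import Pool.Agent.H446R9.EX.St5
import Pool.Agent.H446R9.EX.St9G
import Pool.Agent.H446R9.EX.Lf

set_option autoImplicit false

namespace H446.EX

open Subgroup Finset

/-- DIC: the dichotomy, from the above -/
theorem dichotomy {G : Type*} [Group G] {m : ℕ} (hm : m = 5 ∨ m = 9)
    (h : ∀ x y : G, x ^ m = 1 → y ^ m = 1 → (x * y) ^ m = 1 ∨ (x * y) ^ 2 = 1) :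
    (∀ g ∈ Subgroup.closure {x : G | x ^ m = 1}, g ^ m = 1) ∨
      ∀ F : Subgroup G, F.FG → F ≤ Subgroup.closure {x : G | x ^ m = 1} → Finite F := by
  have hodd : Odd m := by rcases hm with rfl | rfl <;> decide
  apply dichotomy_of (closure_orders hodd h)
  · intro hT hgen hne
    rcases hm with rfl | rfl
    · obtain ⟨S, hSn, hS, hS1⟩ := involutions_subgroup hodd hT
        (fun i j k hi hj hk hi1 hj1 hij1 hij => nomix5 hT i j k hi hj hk hi1 hj1 hij1 hij) hgen hne
      refine ⟨S, ⊤, hSn, inferInstance, fun s hs => (hS s).1 hs, le_top, ?_, fun g => trivial⟩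
      rw [Subgroup.relIndex_top_right]
      exact struct5 hT S hS hS1
    · obtain ⟨S, hSn, hS, hS1⟩ := involutions_subgroup hodd hT
        (fun i j k hi hj hk hi1 hj1 hij1 hij => nomix9 hT i j k hi hj hk hi1 hj1 hij1 hij) hgen hne
      obtain ⟨U, hUn, hSU, hidx, h3⟩ := struct9 hT S hS hS1
      exact ⟨S, U, hSn, hUn, fun s hs => (hS s).1 hs, hSU, hidx, h3⟩
  · intro S U hSn hUn h2 hSU hidx h3 F hF
    exact locFin S U h2 hSU hidx h3 F hF

end H446.EX
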