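import Mathlib

set_option autoImplicit false

namespace H446.EX

open Subgroup Finset

/-- DIC: the dichotomy, with the other statements as hypotheses -/
theorem dichotomy_of {G : Type*} [Group G] {m : ℕ}
    (clo : ∀ g ∈ Subgroup.closure {x : G | x ^ m = 1}, g ^ m = 1 ∨ g ^ 2 = 1)
    (inv : ∀ (_ : ∀ g : Subgroup.closure {x : G | x ^ m = 1}, g ^ m = 1 ∨ g ^ 2 = 1)
      (_ : Subgroup.closure {x : Subgroup.closure {x : G | x ^ m = 1} | x ^ m = 1} = ⊤)
      (_ : ∃ t : Subgroup.closure {x : G | x ^ m = 1}, t ^ m ≠ 1),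
      ∃ S U : Subgroup (Subgroup.closure {x : G | x ^ m = 1}), S.Normal ∧ U.Normal ∧
        (∀ s ∈ S, s ^ 2 = 1) ∧ S ≤ U ∧ S.relIndex U ≠ 0 ∧
        ∀ g : Subgroup.closure {x : G | x ^ m = 1}, g ^ 3 ∈ U)
    (lf : ∀ S U : Subgroup (Subgroup.closure {x : G | x ^ m = 1}), S.Normal → U.Normal →
      (∀ s ∈ S, s ^ 2 = 1) → S ≤ U → S.relIndex U ≠ 0 →
      (∀ g : Subgroup.closure {x : G | x ^ m = 1}, g ^ 3 ∈ U) →
      ∀ F : Subgroup (Subgroup.closure {x : G | x ^ m = 1}), F.FG → Finite F) :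
    (∀ g ∈ Subgroup.closure {x : G | x ^ m = 1}, g ^ m = 1) ∨
      ∀ F : Subgroup G, F.FG → F ≤ Subgroup.closure {x : G | x ^ m = 1} → Finite F := by
  set T : Subgroup G := Subgroup.closure {x : G | x ^ m = 1} with hTdef
  have hT : ∀ g : T, g ^ m = 1 ∨ g ^ 2 = 1 := by
    intro g
    rcases clo g.1 g.2 with h | h
    · left
      exact Subtype.ext h
    · right
      exact Subtype.ext h
  have hgen : Subgroup.closure {x : T | x ^ m = 1} = ⊤ := by
    have h1 : {x : T | x ^ m = 1} = ((↑) : T → G) ⁻¹' {x : G | x ^ m = 1} := by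
      ext x
      constructor
      · intro hx
        exact congrArg Subtype.val hx
      · intro hx
        exact Subtype.ext hx
    rw [h1]
    exact Subgroup.closure_closure_coe_preimage
  by_cases hall : ∀ g : T, g ^ m = 1
  · left
    intro g hg
    exact congrArg Subtype.val (hall ⟨g, hg⟩)
  · right
    push Not at hall
    obtain ⟨S, U, hSn, hUn, hS2, hSU, hidx, h3⟩ := inv hT hgen hall
    intro F hF hFT
    have e : F.subgroupOf T ≃* F := Subgroup.subgroupOfEquivOfLe hFT
    have hFG : (F.subgroupOf T).FG := by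
      have : Group.FG F := (Group.fg_iff_subgroup_fg F).mpr hF
      have h4 : Group.FG (F.subgroupOf T) :=
        Group.fg_of_surjective (f := e.symm.toMonoidHom) e.symm.surjective
      exact (Group.fg_iff_subgroup_fg _).mp h4
    have : Finite (F.subgroupOf T) := lf S U hSn hUn hS2 hSU hidx h3 _ hFG
    exact Finite.of_equiv _ e.toEquiv

end H446.EX
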