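import Mathlib
import Pool.Agent.H15R2.Main

set_option autoImplicit false

namespace H446.EX

open Subgroup Finset

theorem ext_normal {G : Type*} [Group G] (m : ℕ) :
    (Subgroup.closure {x : G | x ^ m = 1}).Normal := by
  constructor
  intro n hn g
  induction hn using Subgroup.closure_induction with
  | mem x hx =>
    apply Subgroup.subset_closure
    show (g * x * g⁻¹) ^ m = 1
    have hx' : x ^ m = 1 := hx
    rw [conj_pow, hx']
    simp
  | one => simp
  | mul x y _ _ hx hy =>
    have : g * (x * y) * g⁻¹ = (g * x * g⁻¹) * (g * y * g⁻¹) := by group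
    rw [this]
    exact mul_mem hx hy
  | inv x _ hx =>
    have : g * x⁻¹ * g⁻¹ = (g * x * g⁻¹)⁻¹ := by group
    rw [this]
    exact inv_mem hx

/-- EXT: exponent `4m` -/
theorem exp4m {G : Type*} [Group G] {m : ℕ}
    (h : ∀ F : Subgroup G, F.FG → F ≤ Subgroup.closure {x : G | x ^ m = 1} → Finite F) :
    ∀ F : Subgroup G, F.FG → (∀ g ∈ F, g ^ (4 * m) = 1) → Finite F := by
  intro F hF hexp
  have hT : (Subgroup.closure {x : G | x ^ m = 1}).Normal := ext_normal m
  set N : Subgroup F := (Subgroup.closure {x : G | x ^ m = 1}).subgroupOf F with hN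
  have hNn : N.Normal := inferInstance
  have hFfg : Group.FG F := (Group.fg_iff_subgroup_fg F).mpr hF
  have hQfg : Group.FG (F ⧸ N) := inferInstance
  have hQ : Finite (F ⧸ N) := by
    apply H15.Struct.finite_exp4 hQfg
    intro q
    obtain ⟨f, rfl⟩ := QuotientGroup.mk_surjective q
    rw [← QuotientGroup.mk_pow, QuotientGroup.eq_one_iff, hN, Subgroup.mem_subgroupOf]
    apply Subgroup.subset_closure
    show ((f ^ 4 : F) : G) ^ m = 1
    rw [Subgroup.coe_pow, ← pow_mul]
    exact hexp f f.2
  have hidx : N.FiniteIndex := Subgroup.finiteIndex_of_finite_quotient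
  have hNfg : N.FG := (Group.fg_iff_subgroup_fg N).mp (Subgroup.fg_of_index_ne_zero N)
  have hmapfg : (N.map F.subtype).FG := by
    classical
    obtain ⟨S, hS⟩ := hNfg
    refine ⟨S.image F.subtype, ?_⟩
    rw [Finset.coe_image, ← MonoidHom.map_closure, hS]
  have hmaple : N.map F.subtype ≤ Subgroup.closure {x : G | x ^ m = 1} := by
    rintro _ ⟨x, hx, rfl⟩
    exact hx
  have hmapfin : Finite (N.map F.subtype) := h _ hmapfg hmaple
  have hNfin : Finite N :=
    Finite.of_equiv _ (N.equivMapOfInjective F.subtype F.subtype_injective).toEquiv.symm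
  exact H15.Struct.finite_of_index N hidx.index_ne_zero hNfin

end H446.EX
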