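import Mathlib

set_option autoImplicit false

namespace H446.EX

open Subgroup Finset

/-- CLO -/
theorem closure_orders {G : Type*} [Group G] {m : ℕ} (hm : Odd m)
    (h : ∀ x y : G, x ^ m = 1 → y ^ m = 1 → (x * y) ^ m = 1 ∨ (x * y) ^ 2 = 1) :
    ∀ g ∈ Subgroup.closure {x : G | x ^ m = 1}, g ^ m = 1 ∨ g ^ 2 = 1 := by
  sorry

/-- ALP -/
theorem isolated {T : Type*} [Group T] {m : ℕ} (hm : Odd m)
    (hT : ∀ g : T, g ^ m = 1 ∨ g ^ 2 = 1) (t : T) (ht1 : t ≠ 1) (ht : t ^ 2 = 1)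
    (hC : ∀ s : T, s ^ 2 = 1 → s * t = t * s → s = 1 ∨ s = t) :
    ∀ g h : T, g ^ m = 1 → h ^ m = 1 → (g * h) ^ m = 1 := by
  sorry

/-- R5 -/
theorem ring5 {R : Type*} [Ring R] (h2 : (1 : R) + 1 = 0) (x y z : R)
    (hyz : y * z = 1) (hzy : z * y = 1)
    (hx : ∑ k ∈ range 5, x ^ k = 0)
    (hxy : ∀ a : ℕ, a < 5 → ∑ k ∈ range 5, (x ^ a * y) ^ k = 0) : (1 : R) = 0 := by
  sorry

/-- R9 -/
theorem ring9 {R : Type*} [Ring R] (h2 : (1 : R) + 1 = 0) (x y : R)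
    (hx : ∑ k ∈ range 3, x ^ k = 0) (hy : ∑ k ∈ range 3, y ^ k = 0)
    (h1 : ∑ k ∈ range 3, (x * y) ^ k = 0 ∨ ∑ k ∈ range 3, ((x * y) ^ 3) ^ k = 0)
    (h3 : ∑ k ∈ range 3, (x ^ 2 * y) ^ k = 0 ∨ ∑ k ∈ range 3, ((x ^ 2 * y) ^ 3) ^ k = 0) :
    (1 : R) = 0 := by
  sorry

/-- ACT -/
theorem exists_ring {T : Type*} [Group T] (S : Subgroup T) [S.Normal]
    (h2 : ∀ s ∈ S, s ^ 2 = 1) (hne : S ≠ ⊥) :
    ∃ (R : Type _) (_ : Ring R) (_ : Nontrivial R) (φ : T →* R), (1 : R) + 1 = 0 ∧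
      ∀ (w : T) (p : ℕ), (∀ s ∈ S, (s * w) ^ p = 1) → ∑ k ∈ range p, φ w ^ k = 0 := by
  sorry

/-- ST5 -/
theorem struct5 {T : Type*} [Group T] (hT : ∀ g : T, g ^ 5 = 1 ∨ g ^ 2 = 1)
    (S : Subgroup T) [S.Normal] (hS : ∀ s : T, s ∈ S ↔ s ^ 2 = 1) (hne : S ≠ ⊥) :
    S.index ≠ 0 := by
  sorry

/-- ST9 -/
theorem struct9 {T : Type*} [Group T] (hT : ∀ g : T, g ^ 9 = 1 ∨ g ^ 2 = 1)
    (S : Subgroup T) [S.Normal] (hS : ∀ s : T, s ∈ S ↔ s ^ 2 = 1) (hne : S ≠ ⊥) :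
    ∃ U : Subgroup T, U.Normal ∧ S ≤ U ∧ S.relIndex U ≠ 0 ∧ ∀ g : T, g ^ 3 ∈ U := by
  sorry

/-- LF -/
theorem locFin {T : Type*} [Group T] (S U : Subgroup T) [S.Normal] [U.Normal]
    (h2 : ∀ s ∈ S, s ^ 2 = 1) (hSU : S ≤ U) (hidx : S.relIndex U ≠ 0)
    (h3 : ∀ g : T, g ^ 3 ∈ U) : ∀ F : Subgroup T, F.FG → Finite F := by
  sorry

/-- COM (needs the no-mixed hypothesis, proved by coset enumeration for m = 5, 9) -/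
theorem involutions_subgroup {T : Type*} [Group T] {m : ℕ} (hm : Odd m)
    (hT : ∀ g : T, g ^ m = 1 ∨ g ^ 2 = 1)
    (hmix : ∀ i j k : T, i ^ 2 = 1 → j ^ 2 = 1 → k ^ 2 = 1 → i ≠ 1 → j ≠ 1 → i ≠ j →
      i * j = j * i → i * k = k * i)
    (hgen : Subgroup.closure {x : T | x ^ m = 1} = ⊤) (hne : ∃ t : T, t ^ m ≠ 1) :
    ∃ S : Subgroup T, S.Normal ∧ (∀ s : T, s ∈ S ↔ s ^ 2 = 1) ∧ S ≠ ⊥ := by
  sorry

/-- MX5 -/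
theorem nomix5 {T : Type*} [Group T] (hT : ∀ g : T, g ^ 5 = 1 ∨ g ^ 2 = 1)
    (i j k : T) (hi : i ^ 2 = 1) (hj : j ^ 2 = 1) (hk : k ^ 2 = 1) (hi1 : i ≠ 1) (hj1 : j ≠ 1)
    (hij1 : i ≠ j) (hij : i * j = j * i) : i * k = k * i := by
  sorry

/-- MX9 -/
theorem nomix9 {T : Type*} [Group T] (hT : ∀ g : T, g ^ 9 = 1 ∨ g ^ 2 = 1)
    (i j k : T) (hi : i ^ 2 = 1) (hj : j ^ 2 = 1) (hk : k ^ 2 = 1) (hi1 : i ≠ 1) (hj1 : j ≠ 1)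
    (hij1 : i ≠ j) (hij : i * j = j * i) : i * k = k * i := by
  sorry

/-- DIC: the dichotomy, from the above -/
theorem dichotomy {G : Type*} [Group G] {m : ℕ} (hm : m = 5 ∨ m = 9)
    (h : ∀ x y : G, x ^ m = 1 → y ^ m = 1 → (x * y) ^ m = 1 ∨ (x * y) ^ 2 = 1) :
    (∀ g ∈ Subgroup.closure {x : G | x ^ m = 1}, g ^ m = 1) ∨
      ∀ F : Subgroup G, F.FG → F ≤ Subgroup.closure {x : G | x ^ m = 1} → Finite F := by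
  sorry

/-- EXT: exponent `4m` -/
theorem exp4m {G : Type*} [Group G] {m : ℕ}
    (h : ∀ F : Subgroup G, F.FG → F ≤ Subgroup.closure {x : G | x ^ m = 1} → Finite F) :
    ∀ F : Subgroup G, F.FG → (∀ g ∈ F, g ^ (4 * m) = 1) → Finite F := by
  sorry

end H446.EX
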